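import Pool.Agent.H79.AE.Reg

/-!
# The ergodicity dichotomy for homomorphisms of finite Borel class

`E` is a countable Borel equivalence relation on a Polish space. Exactly one of the following holds:

* `FinContains E`: there are a countable Borel equivalence relation `F ⊆ E`, an arithmetic cone and
  an injective map of finite Borel class which on this cone is a reduction of `≡_A` to `F`;
* `FinErgodic E`: every homomorphism from `≡_A` to `E` which, on an arithmetic cone and up to `E`,
  is of finite Borel class maps an arithmetic cone into one `E`-class.

If the restriction of `≡_A` to every arithmetic cone is universal (`ConesUniversal`, a theorem of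
Slaman and Steel), then the first alternative implies that `E` is weakly universal. By Martin's
theorem on pointed perfect trees (`PointedTrees`), the second one implies that every homomorphism
from `≡_A` to `E` which is regressive on a cone maps an arithmetic cone into one `E`-class.
-/

set_option autoImplicit false

namespace Pool.Agent.Results.MP_d2112c_lc.FiniteClassDichotomy

open AE

theorem result (X : Type) [TopologicalSpace X] [PolishSpace X] [MeasurableSpace X] [BorelSpace X]
    (E : X → X → Prop) (hE : CBER E) :
    (FinContains E ∨ FinErgodic E) ∧ ¬ (FinContains E ∧ FinErgodic E) ∧
      (ConesUniversal → FinContains E → WeaklyUniversal E) ∧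
      (PointedTrees → FinErgodic E → ∀ f : (ℕ → Bool) → X,
        (∀ x x', EqA x x' → E (f x) (f x')) → RegOnCone E f → ConstOnCone E f) :=
  main_reg hE

end Pool.Agent.Results.MP_d2112c_lc.FiniteClassDichotomy
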